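import Pool.Agent.MP_c5bf7b_nt.H98.Core
import Pool.Agent.MP_c5bf7b_nt.H98.Sum
import Pool.Agent.MP_c5bf7b_nt.H98.MRoot
import Pool.Agent.MP_c5bf7b_nt.H98.Small
import Pool.Agent.MP_c5bf7b_nt.H98.ST
import Pool.Agent.MP_c5bf7b_nt.H98.Poly

/-! Strings of `c log x log log x` consecutive arguments in `[x, 2x)` at which a polynomial
takes no prime value. -/

set_option autoImplicit false

namespace Pool.Agent.Results.MP_6e51af_nt.CompositeStrings

open Pool.Agent.MP_c5bf7b_nt.H98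

theorem result :
    ∀ f : Polynomial ℤ, 0 < f.natDegree → ∃ c : ℝ, 0 < c ∧ ∃ B : ℕ, ∀ x : ℕ, B ≤ x →
      ∃ n : ℕ, x ≤ n ∧ n < 2 * x ∧
        ∀ h : ℕ, (h : ℝ) ≤ c * Real.log x * Real.log (Real.log x) →
          ¬Prime (f.eval ((n + h : ℕ) : ℤ)) :=
  poly (st core sum) mertRoot bad unit greedy

end Pool.Agent.Results.MP_6e51af_nt.CompositeStrings
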