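import Pool.Agent.MP_6e51af_nt.H39.Gap

namespace Pool.Agent.Results.MP_6e51af_nt.CramerModel

open Filter Real MeasureTheory ProbabilityTheory Pool.Agent.MP_6e51af_nt.H39

/-- The two inequalities of Q1 in the random model with density `c / (log m) ^ k`. -/
theorem result {Ω : Type*} [MeasurableSpace Ω] (P : Measure Ω) [IsProbabilityMeasure P]
    (A : ℕ → Set Ω) (hA : ∀ m, MeasurableSet (A m)) (hind : iIndepSet A P)
    (k : ℕ) (hk : 1 ≤ k) (c B : ℝ) (hc : 0 < c)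
    (h1 : ∀ m : ℕ, 2 ≤ m → P.real (A m) ≤ B / log m ^ k)
    (h2 : ∀ x : ℕ, |∑ m ∈ Finset.Icc 2 x, (P.real (A m) - c / log m ^ k)| ≤ B) :
    ∀ᵐ ω ∂P, ∀ S : Set ℕ, S = {m : ℕ | 0 < m ∧ ω ∈ A m} →
      S.Infinite ∧
      (∀ᶠ n : ℕ in atTop, (2 / ((n : ℝ) - 1)) * (∑ i ∈ Finset.range n, (Nat.nth (· ∈ S) i : ℝ))
        < (Nat.nth (· ∈ S) n : ℝ)) ∧
      ((∀ᶠ n : ℕ in atTop, (Nat.nth (· ∈ S) n : ℝ)
        < (Nat.nth (· ∈ S) (n - 1) : ℝ) ^ (1 + 1 / (n : ℝ))) ↔ 2 ≤ k) := by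
  classical
  have h2' := range_form hk h2
  have h1' : ∀ m : ℕ, 2 ≤ m → P.real (A m) ≤ (B + 2) / log m ^ k := fun m hm =>
    (h1 m hm).trans (div_le_div_of_nonneg_right (by linarith)
      (pow_nonneg (log_natCast_nonneg m) k))
  by_cases h : 2 ≤ k
  · filter_upwards [near_ae hA hind h2', ae_all_iff.2 (short_gaps hA hind hc h h1' h2')]
      with ω a b
    rintro S rfl
    refine ⟨infinite hc hk a, lower hc hk a, iff_of_true (upper_holds hc hk a fun D => ?_) h⟩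
    obtain ⟨E, hE⟩ := exists_nat_ge D
    filter_upwards [b E] with q hq hp
    obtain ⟨m, m1, m2, m3⟩ := hq hp
    have := mul_le_mul_of_nonneg_right hE (pow_nonneg (log_natCast_nonneg q) k)
    exact ⟨m, m1, m2, by linarith⟩
  · obtain rfl : k = 1 := by omega
    filter_upwards [near_ae hA hind h2', ae_all_iff.2 (long_gaps hA hind hc h1' h2')]
      with ω a b
    rintro S rfl
    refine ⟨infinite hc hk a, lower hc hk a, iff_of_false (upper_fails hc a fun D => ?_) h⟩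
    obtain ⟨E, hE⟩ := exists_nat_ge D
    refine (b E).mono fun q hq => ⟨hq.1, fun m m1 m2 => ?_⟩
    have := mul_le_mul_of_nonneg_right hE (log_natCast_nonneg q)
    linarith [hq.2 m m1 m2]

end Pool.Agent.Results.MP_6e51af_nt.CramerModel
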