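import Pool.Agent.MP_6e51af_nt.H82.ModC

set_option autoImplicit false

namespace Pool.Agent.Results.MP_6e51af_nt.GranvilleModel

open Filter Real Topology MeasureTheory ProbabilityTheory
open Pool.Agent.MP_6e51af_nt.H39 Pool.Agent.MP_6e51af_nt.H82 Pool.Agent.MP_c5bf7b_nt.H98

/-- The upper inequality of Q1 fails in Granville's model, for every polynomial sieve. -/
theorem result (F : Polynomial ℤ) (hF : 0 < F.natDegree)
    (hfix : ¬∃ p : ℕ, p.Prime ∧ ∀ q : ℤ, (p : ℤ) ∣ F.eval q)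
    (k : ℕ) (hk : 1 ≤ k) (θ : ℝ) (hθ : 0 < θ) :
    ∃ δ : ℝ, 0 < δ ∧
      ∀ (Ω : Type) [MeasurableSpace Ω] (P : Measure Ω) [IsProbabilityMeasure P] (A : ℕ → Set Ω),
        (∀ m, MeasurableSet (A m)) → iIndepSet A P →
      ∀ (c : ℝ), 0 < c → ∀ T : ℕ → ℕ, Monotone T →
        (∀ᶠ m : ℕ in atTop, log m ^ θ ≤ T m) →
        Tendsto (fun m : ℕ => (T m : ℝ) / log m) atTop (𝓝 0) →
        (∀ m : ℕ, (∃ p : ℕ, p.Prime ∧ p ≤ T m ∧ (p : ℤ) ∣ F.eval (m : ℤ)) → P.real (A m) = 0) →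
        (∀ ε : ℝ, 0 < ε → ∀ᶠ m : ℕ in atTop,
          (∀ p : ℕ, p.Prime → p ≤ T m → ¬(p : ℤ) ∣ F.eval (m : ℤ)) →
            |P.real (A m) * (∏ p ∈ (Finset.range (T m + 1)).filter Nat.Prime,
              (1 - (((Finset.range p).filter fun x : ℕ => (p : ℤ) ∣ F.eval (x : ℤ)).card : ℝ) / p)) *
                log m ^ k - c| ≤ ε) →
        ∀ᵐ ω ∂P, ∀ S : Set ℕ, S = {m : ℕ | 0 < m ∧ ω ∈ A m} →
          S.Infinite ∧ ∃ᶠ n : ℕ in atTop,
            (Nat.nth (· ∈ S) (n - 1) : ℝ) ^ (1 + (1 + δ) / (n : ℝ)) < (Nat.nth (· ∈ S) n : ℝ) := by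
  classical
  obtain ⟨δ, δ0, y0, hI⟩ := irr F hF (prim hfix) (U := ⌈(k + 2 : ℕ) / θ⌉₊ + 1) (by omega)
  have lt := nroots_lt hfix
  have m0 : 0 < min δ 1 := lt_min δ0 one_pos
  refine ⟨min δ 1 / 10 / 4, by positivity, fun Ω _ P _ A hA hind c hc T hT h1 h2 h3 h4 => ?_⟩
  have cand : ∀ t m, Cand F t m ↔ ∀ p : ℕ, p.Prime → p ≤ t → ¬(p : ℤ) ∣ F.eval (m : ℤ) :=
    fun t m => ⟨fun h p pp hp => h p (Nat.mem_primesBelow.2 ⟨Nat.lt_succ_of_le hp, pp⟩),
      fun h p hp => h p (Nat.mem_primesBelow.1 hp).2 (Nat.lt_succ_iff.1 (Nat.mem_primesBelow.1 hp).1)⟩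
  have M : Mod F k c θ T fun m => P.real (A m) :=
    ⟨lt, hT, h1, h2, fun _ => measureReal_nonneg, fun _ => measureReal_le_one, fun m hm => h3 m (by
      rw [cand] at hm
      push Not at hm
      exact hm), fun ε hε => (h4 ε hε).mono fun m hm hc => hm ((cand _ _).1 hc)⟩
  have W := M.win hc hθ hk (nroots_le_deg F (prim hfix)) m0 (min_le_right _ _)
    (U := ⌈(k + 2 : ℕ) / θ⌉₊ + 1) (y0 := y0) (by
      have := Nat.le_ceil ((k + 2 : ℕ) / θ)
      rw [div_le_iff₀ hθ] at this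
      push_cast at this ⊢
      linarith) fun y z a b => (hI y z a b).imp fun a ha => ha.trans
        (mul_le_mul_of_nonneg_right (mul_le_mul_of_nonneg_right
          (sub_le_sub_left (min_le_left _ _) _) (Nat.cast_nonneg _)) (VV_pos lt z).le)
  set e := min δ 1 / 10 with he
  have e0 : 0 < e := by positivity
  have e1 : e ≤ 1 / 10 := by linarith [min_le_right δ 1]
  have s : ¬Summable fun q : ℕ => P.real (V A {q} (Finset.Ioc q (q + gp e c k q))) := by
    intro hs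
    obtain ⟨t, ht⟩ := summable_iff_vanishing_norm.1 hs 1 one_pos
    obtain ⟨x, x1, x2⟩ := (W.and (eventually_ge_atTop (t.sup id))).exists
    have := ht (Finset.Ioc x (2 * x)) (Finset.disjoint_left.2 fun q hq hq' => by
      have := Finset.le_sup (f := id) hq'
      have := Finset.mem_Ioc.1 hq
      simp only [id] at *
      omega)
    simp only [V_prob hA hind _ _ (disj _ _), Finset.prod_singleton] at this
    exact absurd (x1.trans (le_abs_self _)) (not_le.2 this)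
  have a := bc2 (P := P) (fun q => V A {q} (Finset.Ioc q (q + gp e c k q)))
    (fun q => V_meas hA _ _ (disj _ _)) (fun q q' h => by
      rcases lt_or_gt_of_ne h with h | h
      · exact gap_corr hA hind (gp e c k) h
      · rw [Set.inter_comm]
        exact (gap_corr hA hind (gp e c k) h).trans_eq (mul_comm _ _)) s
  filter_upwards [a, conc hA hind] with ω hω hω'
  rintro S rfl
  refine fin (p := fun m => 0 < m ∧ ω ∈ A m) (k := k) hc e0 e1 ?_ ?_
  · filter_upwards [hω', M.mean hc (ε := e / 8) (by positivity) (by linarith), ev_log 1,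
      ev_sqrt (16 / (e * c)) (k + 1)] with x a1 a2 a3 a4
    exact count_ge hc e0 a1 a2 a3 a4
  · refine (hω.and_eventually (eventually_gt_atTop 0)).mono fun q ⟨h3, h4⟩ =>
      ⟨⟨h4, h3.1 q (Finset.mem_singleton_self _)⟩, fun m hm hq => ?_⟩
    by_contra hh
    exact h3.2 m (Finset.mem_Ioc.2 ⟨hq, by omega⟩) hm.2

end Pool.Agent.Results.MP_6e51af_nt.GranvilleModel
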